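import Pool.Agent.Y184.NT.StE

/-!
# The equation of an irreducible hypersurface and lines

`nlf : StNLG → StIrr → StNLF` of `Pool.Agent.Y184.NT.StE`.
-/

set_option autoImplicit false
set_option linter.overlappingInstances false

open FF Polynomial Pool.Agent.W602.GT Pool.Agent.Y184.NT

namespace Pool.Agent.Y317.NT

/-- homomorphisms from a field generated by finitely many elements (copied from
`Pool.Agent.Y362.NT.exists_hom`) -/
theorem exists_hom {K R : Type} [Field K] [Field R] [Algebra ℂ K] [Algebra ℂ R] {N : ℕ}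
    (x : Fin N → K) (u : Fin N → R) (hx : IntermediateField.adjoin ℂ (Set.range x) = ⊤)
    (h : ∀ G : MvPolynomial (Fin N) ℂ, MvPolynomial.aeval x G = 0 ↔
      MvPolynomial.aeval u G = 0) : ∃ φ : K →ₐ[ℂ] R, ∀ j, φ (x j) = u j := by
  let f : MvPolynomial (Fin N) ℂ →ₐ[ℂ] K := MvPolynomial.aeval x
  have hfr : IsFractionRing f.range K := by
    have : FaithfulSMul f.range K :=
      (faithfulSMul_iff_algebraMap_injective f.range K).mpr Subtype.val_injective
    refine IsFractionRing.of_field f.range K fun z => ?_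
    have hz : z ∈ IntermediateField.adjoin ℂ (Set.range x) := by
      rw [hx]
      exact IntermediateField.mem_top
    obtain ⟨r, s, hrs⟩ := (IntermediateField.mem_adjoin_range_iff ℂ x z).mp hz
    exact ⟨⟨f r, ⟨r, rfl⟩⟩, ⟨f s, ⟨s, rfl⟩⟩, hrs⟩
  let g0 : (MvPolynomial (Fin N) ℂ ⧸ RingHom.ker f) →ₐ[ℂ] R :=
    Ideal.Quotient.liftₐ (RingHom.ker f) (MvPolynomial.aeval u) (fun G hG => (h G).mp hG)
  let e := Ideal.quotientKerEquivRange f
  let g : f.range →ₐ[ℂ] R := g0.comp (e.symm : f.range →ₐ[ℂ] _)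
  have hg0 : Function.Injective g0 := by
    rw [injective_iff_map_eq_zero]
    intro y hy
    obtain ⟨G, rfl⟩ := Ideal.Quotient.mk_surjective y
    have h1 : MvPolynomial.aeval u G = 0 := hy
    exact Ideal.Quotient.eq_zero_iff_mem.mpr ((h G).mpr h1)
  have hg : Function.Injective g := hg0.comp e.symm.injective
  refine ⟨IsFractionRing.liftAlgHom hg, fun j => ?_⟩
  have h1 : x j = algebraMap f.range K ⟨f (MvPolynomial.X j), ⟨_, rfl⟩⟩ := by
    show x j = f (MvPolynomial.X j)
    simp [f]
  have h2 : e (Ideal.Quotient.mk (RingHom.ker f) (MvPolynomial.X j)) =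
      ⟨f (MvPolynomial.X j), ⟨_, rfl⟩⟩ := rfl
  rw [h1, IsFractionRing.liftAlgHom_apply, IsFractionRing.lift_algebraMap, ← h2]
  show g0 (e.symm (e _)) = _
  rw [AlgEquiv.symm_apply_apply]
  show MvPolynomial.aeval u (MvPolynomial.X j) = u j
  simp

/-- the value of a form at a multiple of a vector -/
theorem aeval_smul_form {R : Type} [Field R] [Algebra ℂ R] {m dF : ℕ}
    {F : MvPolynomial (Fin m) ℂ} (hh : F.IsHomogeneous dF) (c : R) (y : Fin m → R) :
    MvPolynomial.aeval (fun l => c * y l) F = c ^ dF * MvPolynomial.aeval y F := by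
  classical
  rw [MvPolynomial.aeval_def, MvPolynomial.eval₂_eq', MvPolynomial.aeval_def,
    MvPolynomial.eval₂_eq', Finset.mul_sum]
  refine Finset.sum_congr rfl fun a ha => ?_
  have h1 : ∑ i, a i = dF := by
    have h2 := hh (MvPolynomial.mem_support_iff.1 ha)
    rw [← h2, Finsupp.weight_apply, Finsupp.sum_fintype _ _ fun i => by simp]
    simp
  simp only [mul_pow, Finset.prod_mul_distrib]
  rw [Finset.prod_pow_eq_pow_sum, h1]
  ring

/-- homogenisation with respect to a variable -/
theorem exists_hmg {N : ℕ} (j0 : Fin N) (G : MvPolynomial (Fin N) ℂ) :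
    ∃ (D : ℕ) (H : MvPolynomial (Fin N) ℂ), H.IsHomogeneous D ∧
      ∀ (R : Type) [Field R] [Algebra ℂ R] (v : Fin N → R), v j0 ≠ 0 →
        MvPolynomial.aeval v H = v j0 ^ D * MvPolynomial.aeval (fun j => v j / v j0) G := by
  refine ⟨G.totalDegree, ∑ k ∈ Finset.range (G.totalDegree + 1),
    MvPolynomial.X j0 ^ (G.totalDegree - k) * MvPolynomial.homogeneousComponent k G, ?_, ?_⟩
  · refine MvPolynomial.IsHomogeneous.sum _ _ _ fun k hk => ?_
    have hk' : k ≤ G.totalDegree := Nat.lt_succ_iff.1 (Finset.mem_range.1 hk)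
    have h1 := (MvPolynomial.isHomogeneous_X_pow (R := ℂ) j0 (G.totalDegree - k)).mul
      (MvPolynomial.homogeneousComponent_isHomogeneous k G)
    rwa [Nat.sub_add_cancel hk'] at h1
  · intro R _ _ v hv
    have h0 : MvPolynomial.aeval (fun j => v j / v j0) G =
        ∑ k ∈ Finset.range (G.totalDegree + 1), MvPolynomial.aeval (fun j => v j / v j0)
          (MvPolynomial.homogeneousComponent k G) := by
      conv_lhs => rw [← MvPolynomial.sum_homogeneousComponent G]
      rw [map_sum]
    rw [map_sum, h0, Finset.mul_sum]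
    refine Finset.sum_congr rfl fun k hk => ?_
    have hk' : k ≤ G.totalDegree := Nat.lt_succ_iff.1 (Finset.mem_range.1 hk)
    rw [map_mul, map_pow, MvPolynomial.aeval_X]
    have h2 := aeval_smul_form (MvPolynomial.homogeneousComponent_isHomogeneous k G) (v j0)
      (fun j => v j / v j0)
    have h3 : (fun l => v j0 * (v l / v j0)) = v := by
      funext l
      rw [mul_div_cancel₀ _ hv]
    rw [h3] at h2
    rw [h2, ← mul_assoc, ← pow_add, Nat.sub_add_cancel hk']

theorem lin_aeval {L K : Type} [Field L] [Field K] [Algebra L K] {N : ℕ} (a b : Fin N → L) (s : K)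
    (j : Fin N) : aeval s (lin a b j) = algebraMap L K (a j) + s * algebraMap L K (b j) := by
  rw [lin, map_add, map_mul, aeval_C, aeval_X, aeval_C]

/-- **StNLF** -/
theorem nlf (hNLG : StNLG) (hIrr : StIrr) : StNLF := by
  intro L K _ _ _ _ _ _ _ n l d hn z hz ω hω hreg hne F hFi hFh x j0 hx0 hx hxF a b τ hab hxab h0
  have h1 : ∀ G : MvPolynomial (Fin (n + 2)) ℂ,
      aeval τ (restr G a b) = MvPolynomial.aeval x G := by
    intro G
    have h5 := MvPolynomial.comp_aeval_apply
      (φ := (aeval τ : L[X] →ₐ[L] K).restrictScalars ℂ) (lin a b) G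
    have h6 : (fun j => (aeval τ : L[X] →ₐ[L] K).restrictScalars ℂ (lin a b j)) = x := by
      funext j
      change aeval τ (lin a b j) = _
      rw [lin_aeval, hxab]
    rw [h6] at h5
    rw [← h5]
    rfl
  obtain ⟨lam, hlam⟩ : ∃ lam : Fin (n + 2) → RatFunc L,
      lam = fun j => algebraMap L[X] (RatFunc L) (lin a b j) := ⟨_, rfl⟩
  have hrl : ∀ G : MvPolynomial (Fin (n + 2)) ℂ,
      algebraMap L[X] (RatFunc L) (restr G a b) = MvPolynomial.aeval lam G := by
    intro G
    rw [hlam]
    exact (MvPolynomial.aeval_algebraMap_apply (RatFunc L) (lin a b) G).symm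
  have hl0 : lin a b j0 ≠ 0 := by
    intro h
    have h2 := lin_aeval a b τ j0
    rw [h, map_zero, ← hxab, hx0] at h2
    exact zero_ne_one h2
  have hlam0 : lam j0 ≠ 0 := by
    rw [hlam]
    intro h
    exact hl0 (IsFractionRing.injective L[X] (RatFunc L) (by rw [map_zero]; exact h))
  have hFl : MvPolynomial.aeval lam F = 0 := by rw [← hrl, h0, map_zero]
  have hx1 : (fun j => x j / x j0) = x := by
    funext j
    rw [hx0, div_one]
  have key : ∀ G : MvPolynomial (Fin (n + 2)) ℂ, MvPolynomial.aeval x G = 0 ↔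
      MvPolynomial.aeval (fun j => lam j / lam j0) G = 0 := by
    intro G
    obtain ⟨D, H, hH, hv⟩ := exists_hmg j0 G
    have e1 := hv K x (by rw [hx0]; exact one_ne_zero)
    rw [hx1, hx0, one_pow, one_mul] at e1
    have e2 := hv (RatFunc L) lam hlam0
    constructor
    · intro h
      have h3 : F ∣ H := hIrr K n d D F H hn hFi hFh hH x j0 (by rw [hx0]; exact one_ne_zero)
        (by rw [hx1]; exact hx) hxF (by rw [e1, h])
      obtain ⟨Q, rfl⟩ := h3
      rw [map_mul, hFl, zero_mul] at e2
      exact (mul_eq_zero.1 e2.symm).resolve_left (pow_ne_zero _ hlam0)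
    · intro h
      rw [h, mul_zero, ← hrl] at e2
      have h3 : restr H a b = 0 := IsFractionRing.injective L[X] (RatFunc L) (by
        rw [e2, map_zero])
      rw [← e1, ← h1, h3, map_zero]
  obtain ⟨φ, hφ⟩ := exists_hom x (fun j => lam j / lam j0) hx key
  have hc : ∀ j, ∃ c : L, lin a b j = C c * lin a b j0 := by
    intro j
    obtain ⟨c, hc⟩ := hNLG K L n l hn z hz ω hω hreg hne φ (x j)
    refine ⟨c, ?_⟩
    rw [hφ, div_eq_iff hlam0, hlam] at hc
    apply IsFractionRing.injective L[X] (RatFunc L)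
    rw [map_mul]
    rw [IsScalarTower.algebraMap_apply L L[X] (RatFunc L), Polynomial.algebraMap_eq] at hc
    exact hc
  rw [LinearIndependent.pair_iff] at hab
  obtain ⟨hb, ha⟩ := hab (b j0) (-a j0) (by
    funext j
    obtain ⟨c, hc⟩ := hc j
    have e0 := congrArg (fun p => Polynomial.coeff p 0) hc
    have e1 := congrArg (fun p => Polynomial.coeff p 1) hc
    simp only [lin, coeff_add, coeff_C_zero, coeff_X_mul_zero, add_zero, coeff_C_mul] at e0
    have e1' : b j = c * b j0 := by simpa [lin] using e1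
    simp only [Pi.add_apply, Pi.smul_apply, smul_eq_mul, Pi.zero_apply]
    rw [e0, e1']
    ring)
  have h2 := lin_aeval a b τ j0
  rw [← hxab, hx0, lin, neg_eq_zero.1 ha, hb] at h2
  simp at h2

end Pool.Agent.Y317.NT
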